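import Mathlib

namespace Pool.Agent.Results.MP_6bbb8b_nt.SameBase

open Finset

/-- `d 0, …, d k` are the base-`b` digits of an `(n,b)`-palintiple `(d_k, …, d_0)_b`, and
`c 0, …, c (k+1)` are its carries. -/
structure IsPalintiple (n b k : ℕ) (d c : ℕ → ℕ) : Prop where
  three_le : 3 ≤ b
  one_lt : 1 < n
  lt_base : n < b
  one_le : 1 ≤ k
  digit_lt : ∀ j, j ≤ k → d j < b
  last_ne : d 0 ≠ 0
  value : ∑ j ∈ range (k + 1), d j * b ^ j = n * ∑ j ∈ range (k + 1), d (k - j) * b ^ j
  carry_zero : c 0 = 0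
  carry_end : c (k + 1) = 0
  carry_eq : ∀ j, j ≤ k → n * d (k - j) + c j = d j + b * c (j + 1)

/-- shifted-symmetric carries: `c_j = c_{k-j+1}` for `0 ≤ j ≤ k`. -/
def ShiftedSymmetric (k : ℕ) (c : ℕ → ℕ) : Prop := ∀ j, j ≤ k → c j = c (k - j + 1)

theorem carry_lt {n b k : ℕ} {d c : ℕ → ℕ} (h : IsPalintiple n b k d c) :
    ∀ j, j ≤ k + 1 → c j < n := by
  intro j
  induction j with
  | zero => intro _; rw [h.carry_zero]; have := h.one_lt; omega
  | succ j ih =>
    intro hj
    have h1 := ih (by omega)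
    have h2 := h.carry_eq j (by omega)
    have h3 := h.digit_lt (k - j) (by omega)
    by_contra hc
    have hc : n ≤ c (j + 1) := by omega
    have h4 : b * n ≤ b * c (j + 1) := Nat.mul_le_mul_left _ hc
    have h5 : n * (d (k - j) + 1) ≤ n * b := Nat.mul_le_mul_left _ h3
    nlinarith

theorem core (x y u c0 b m : ℤ) (hx : 0 < x) (hu : 0 < u) (hc : 0 < c0) (hxy : x < y)
    (hcop : IsCoprime x y) (hrel : c0 * (b * x + y) = y ^ 2 - x ^ 2)
    (hb : u * y < b) (hm : u * y < m) (hdvd : (m ^ 2 - 1) ∣ x * u ^ 2 * (m * y + x)) :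
    m = b := by
  have hy : 0 < y := by omega
  have huy : 0 < u * y := mul_pos hu hy
  have hm1 : 1 < m := by omega
  have hb0 : 0 < b := by omega
  have hN : 0 < m ^ 2 - 1 := by nlinarith
  have hB : 0 < m * x + y := by positivity
  have h1 : (m ^ 2 - 1) ∣ x * u ^ 2 * (m * x + y) := by
    have e : x * u ^ 2 * (m * x + y) =
        m * (x * u ^ 2 * (m * y + x)) - (m ^ 2 - 1) * (x * u ^ 2 * y) := by ring
    rw [e]
    exact dvd_sub (Dvd.dvd.mul_left hdvd _) (dvd_mul_right _ _)
  obtain ⟨h, w, E, hh, hwE, hw, hE⟩ : ∃ h w E : ℤ, 0 < h ∧ IsCoprime w E ∧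
      m * x + y = w * h ∧ m ^ 2 - 1 = E * h := by
    have hg : 0 < Int.gcd (m * x + y) (m ^ 2 - 1) := Int.gcd_pos_of_ne_zero_left _ hB.ne'
    obtain ⟨g, w, E, hg0, hc, e1, e2⟩ := Int.exists_gcd_one' hg
    exact ⟨g, w, E, by exact_mod_cast hg0, Int.isCoprime_iff_gcd_eq_one.mpr hc, e1, e2⟩
  have hE0 : 0 < E := by
    by_contra hneg
    have : E * h ≤ 0 := mul_nonpos_of_nonpos_of_nonneg (by omega) hh.le
    omega
  have h2 : E ∣ x * u ^ 2 := by
    have : E * h ∣ (x * u ^ 2 * w) * h := by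
      rw [← hE, mul_assoc, ← hw]; exact h1
    have h3 : E ∣ x * u ^ 2 * w := (mul_dvd_mul_iff_right hh.ne').mp this
    exact hwE.symm.dvd_of_dvd_mul_right h3
  have hEle : E ≤ x * u ^ 2 := Int.le_of_dvd (by positivity) h2
  set a : ℤ := (y - m * x) * w + x ^ 2 * E with ha
  have hah : y ^ 2 - x ^ 2 = a * h := by
    have : a * h = (y - m * x) * (w * h) + x ^ 2 * (E * h) := by rw [ha]; ring
    rw [this, ← hw, ← hE]; ring
  have hyx : 0 < y ^ 2 - x ^ 2 := by nlinarith
  have ha0 : 0 < a := by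
    by_contra hneg
    have : a * h ≤ 0 := mul_nonpos_of_nonpos_of_nonneg (by omega) hh.le
    omega
  have hxh : IsCoprime x h := by
    have h3 : IsCoprime x (y + x * m) := hcop.add_mul_left_right m
    have h4 : y + x * m = w * h := by rw [← hw]; ring
    rw [h4] at h3
    exact h3.of_mul_right_right
  have h5 : h * (w * c0 - a) = x * (c0 * (m - b)) := by
    have : h * (w * c0 - a) = (w * h) * c0 - a * h := by ring
    rw [this, ← hw, ← hah, ← hrel]; ring
  have h6 : x ∣ w * c0 - a := by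
    have : x ∣ h * (w * c0 - a) := ⟨_, h5⟩
    exact hxh.dvd_of_dvd_mul_left this
  obtain ⟨j, hj⟩ := h6
  have h7 : h * j = c0 * (m - b) := by
    rw [hj] at h5
    have : x * (h * j) = x * (c0 * (m - b)) := by rw [← h5]; ring
    exact mul_left_cancel₀ hx.ne' this
  have h8 : j * (b * x + y) = a * (m - b) := by
    have : c0 * (j * (b * x + y)) = c0 * (a * (m - b)) := by
      calc c0 * (j * (b * x + y)) = j * (c0 * (b * x + y)) := by ring
        _ = j * (a * h) := by rw [hrel, hah]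
        _ = a * (h * j) := by ring
        _ = c0 * (a * (m - b)) := by rw [h7]; ring
    exact mul_left_cancel₀ hc.ne' this
  -- `a (m² - 1) < x (u y)²`
  have h9 : a * (m ^ 2 - 1) < x * (u * y) ^ 2 := by
    have e1 : a * (m ^ 2 - 1) = (y ^ 2 - x ^ 2) * E := by rw [hE, hah]; ring
    have e2 : (y ^ 2 - x ^ 2) * E ≤ (y ^ 2 - x ^ 2) * (x * u ^ 2) :=
      mul_le_mul_of_nonneg_left hEle hyx.le
    have e3 : 0 < x ^ 2 * (x * u ^ 2) := by positivity
    nlinarith
  have h10 : (u * y) ^ 2 ≤ m ^ 2 - 1 := by nlinarith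
  have hax : a < x := by
    by_contra hneg
    have hneg : x ≤ a := by omega
    have e1 : x * (u * y) ^ 2 ≤ a * (m ^ 2 - 1) :=
      mul_le_mul hneg h10 (by positivity) ha0.le
    omega
  rcases lt_trichotomy j 0 with hj0 | hj0 | hj0
  · exfalso
    have e1 : j * (b * x + y) ≤ -(b * x + y) := by
      have : 0 < b * x + y := by positivity
      nlinarith
    have e2 : b * a < b * x := mul_lt_mul_of_pos_left hax hb0
    have e3 : 0 < a * m := by positivity
    nlinarith
  · rw [hj0] at h8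
    have : a * (m - b) = 0 := by rw [← h8]; ring
    rcases mul_eq_zero.mp this with h | h
    · omega
    · omega
  · exfalso
    have hp : 0 < b * x + y := by positivity
    have e1 : a * b + b * x + y ≤ a * m := by nlinarith
    have e2 : (u * y) ^ 2 ≤ b ^ 2 := by nlinarith
    have e3 : a * (a * (m ^ 2 - 1)) ≤ x * (x * b ^ 2) := by
      have t1 : a * (m ^ 2 - 1) ≤ x * b ^ 2 := by
        have := mul_le_mul_of_nonneg_left e2 hx.le
        omega
      exact mul_le_mul hax.le t1 (by positivity) hx.le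
    have e4 : (a * b + b * x + y) ^ 2 ≤ (a * m) ^ 2 :=
      pow_le_pow_left₀ (by positivity) e1 2
    have e5 : a ≤ a * b := by nlinarith
    have e6 : a ^ 2 ≤ (a * b) ^ 2 := pow_le_pow_left₀ ha0.le e5 2
    have e7 : 0 < a * b * (b * x) := by positivity
    have e8 : 0 < y * (a * b + b * x) := by positivity
    nlinarith

theorem result (n b k : ℕ) (d c : ℕ → ℕ) (n' b' : ℕ) (d' c' : ℕ → ℕ)
    (hp : IsPalintiple n b k d c) (hs : ShiftedSymmetric k c)
    (hq : IsPalintiple n' b' (k + 2) d' c')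
    (h0 : c' 0 = 0) (hmid : ∀ j, j ≤ k → c' (j + 1) = d j) (hend : c' (k + 2) = 0) :
    n' = b := by
  have hk := hp.one_le
  have a1 := hp.carry_eq 0 (by omega)
  have a2 := hp.carry_eq k le_rfl
  have a3 : c 1 = c k := by
    have := hs 1 hk
    rwa [show k - 1 + 1 = k by omega] at this
  rw [hp.carry_zero] at a1
  rw [hp.carry_end, Nat.sub_self] at a2
  simp only [Nat.sub_zero, add_zero, zero_add, mul_zero] at a1 a2
  rw [a3] at a1
  have b1 := hq.carry_eq 0 (by omega)
  have b2 := hq.carry_eq (k + 2) le_rfl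
  have b3 := hq.carry_eq 1 (by omega)
  have b4 := hq.carry_eq (k + 1) (by omega)
  rw [h0, hmid 0 (by omega)] at b1
  rw [hend, hq.carry_end, Nat.sub_self] at b2
  rw [show k + 2 - 1 = k + 1 by omega, hmid 1 hk] at b3
  have hm0 := hmid 0 (by omega)
  rw [zero_add] at hm0
  rw [hm0] at b3
  rw [show k + 2 - (k + 1) = 1 by omega, hmid k le_rfl, show k + 1 + 1 = k + 2 by omega,
    hend] at b4
  simp only [Nat.sub_zero, add_zero, mul_zero] at b1 b2 b4
  have hlt : d k < n' := by
    have := carry_lt hq (k + 1) (by omega)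
    rwa [hmid k le_rfl] at this
  have hdb := hp.digit_lt k le_rfl
  have hd0 : 0 < d 0 := Nat.pos_of_ne_zero hp.last_ne
  have hn := hp.one_lt
  have hg : 0 < Nat.gcd (d 0) (d k) := Nat.gcd_pos_of_pos_left _ hd0
  obtain ⟨u, x, y, hu, hcop, ex, ey⟩ := Nat.exists_coprime' hg
  have hx : 0 < x := by
    rcases Nat.eq_zero_or_pos x with h | h
    · rw [h] at ex; omega
    · exact h
  have a1' : (n : ℤ) * (y * u) = x * u + b * c k := by rw [ex, ey] at a1; exact_mod_cast a1
  have a2' : (n : ℤ) * (x * u) + c k = y * u := by rw [ex, ey] at a2; exact_mod_cast a2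
  have hu' : (0 : ℤ) < u := by exact_mod_cast hu
  have hx' : (0 : ℤ) < x := by exact_mod_cast hx
  have hn' : (1 : ℤ) < n := by exact_mod_cast hn
  have hck : (c k : ℤ) = (y - n * x) * u := by linarith
  have a4 : (n : ℤ) * y = x + b * (y - n * x) := by
    rw [hck] at a1'
    have : (u : ℤ) * (n * y) = u * (x + b * (y - n * x)) := by linarith
    exact mul_left_cancel₀ hu'.ne' this
  have hc0 : (0 : ℤ) ≤ y - n * x := by
    by_contra hneg
    have h1 : ((y : ℤ) - n * x) * u < 0 := mul_neg_of_neg_of_pos (by omega) hu'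
    have h2 : (0 : ℤ) ≤ c k := by positivity
    omega
  have hc1 : (0 : ℤ) < y - n * x := by
    rcases hc0.lt_or_eq with h | h
    · exact h
    · exfalso
      rw [← h] at a4
      have hy : (y : ℤ) = n * x := by omega
      rw [hy] at a4
      have : (0 : ℤ) < (n * n - 1) * x := mul_pos (by nlinarith) hx'
      nlinarith
  have key := core x y u (y - n * x) b n' hx' hu' hc1 (by nlinarith)
    (Nat.isCoprime_iff_coprime.mpr hcop) (by linear_combination (-(x : ℤ)) * a4)
    (by rw [ey] at hdb; have : ((y * u : ℕ) : ℤ) < b := by exact_mod_cast hdb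
        push_cast at this; linarith)
    (by rw [ey] at hlt; have : ((y * u : ℕ) : ℤ) < n' := by exact_mod_cast hlt
        push_cast at this; linarith)
    (by
      have c1 : (n' : ℤ) * d' (k + 2) = d' 0 + b' * (x * u) := by
        rw [ex] at b1; exact_mod_cast b1
      have c2 : (n' : ℤ) * d' 0 = d' (k + 2) := by exact_mod_cast b2
      have c3 : (n' : ℤ) * d' (k + 1) + x * u = d' 1 + b' * d 1 := by
        rw [ex] at b3; exact_mod_cast b3
      have c4 : (n' : ℤ) * d' 1 + y * u = d' (k + 1) := by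
        rw [ey] at b4; exact_mod_cast b4
      refine ⟨(d' 0 : ℤ) * d 1 - d' 1 * (x * u), ?_⟩
      linear_combination (x * u : ℤ) * c3 + (x * u * n' : ℤ) * c4 - (d 1 : ℤ) * c1
        - (d 1 * n' : ℤ) * c2)
  exact_mod_cast key

end Pool.Agent.Results.MP_6bbb8b_nt.SameBase
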